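import Pool.Agent.helper54.V3.SpecE

/-!
# Project v3 (MP_af9036_an), module FLAG
-/

set_option autoImplicit false

open Complex Metric Set Filter Topology MeasureTheory

noncomputable section

namespace V3

theorem FLAG : FLAG_stmt := by
  intro Pf hP
  have hne : Pf.Nonempty := Finset.card_pos.1 (by omega)
  have h1 := Lagrange.sum_basis (s := Pf) (v := (id : ℂ → ℂ)) (Function.injective_id.injOn) hne
  have h2 := congrArg (fun p => Polynomial.coeff p (Pf.card - 1)) h1
  simp only [Polynomial.finsetSum_coeff] at h2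
  rw [Polynomial.coeff_one, if_neg (by omega)] at h2
  rw [← h2]
  refine Finset.sum_congr rfl fun p hp => ?_
  have e1 : Lagrange.basis Pf (id : ℂ → ℂ) p =
      Polynomial.C (∏ p' ∈ Pf.erase p, (p - p')⁻¹) *
        ∏ p' ∈ Pf.erase p, (Polynomial.X - Polynomial.C p') := by
    unfold Lagrange.basis Lagrange.basisDivisor
    rw [Finset.prod_mul_distrib, map_prod]
    rfl
  have hdeg : (∏ p' ∈ Pf.erase p, (Polynomial.X - Polynomial.C p') : Polynomial ℂ).natDegree =
      Pf.card - 1 := by
    rw [Polynomial.natDegree_prod_of_monic _ _ fun p' _ => Polynomial.monic_X_sub_C p']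
    simp [Finset.card_erase_of_mem hp]
  have hmon : (∏ p' ∈ Pf.erase p, (Polynomial.X - Polynomial.C p') : Polynomial ℂ).Monic :=
    Polynomial.monic_prod_of_monic _ _ fun p' _ => Polynomial.monic_X_sub_C p'
  rw [e1, Polynomial.coeff_C_mul, ← hdeg, Polynomial.coeff_natDegree, hmon.leadingCoeff, mul_one,
    Finset.prod_inv_distrib]

end V3
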