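import Pool.Agent.helper95.V3.REMO

/-!
# Project v3 (MP_af9036_an), module FSUM
-/

set_option autoImplicit false

open Complex Metric Set Filter Topology MeasureTheory

noncomputable section

namespace V3

theorem FSUM_d1 (p c y : ℂ) (hy : y ≠ p) :
    HasDerivAt (fun x : ℂ => 1 / (x - p) ^ 2 + c / (x - p))
      (-2 / (y - p) ^ 3 - c / (y - p) ^ 2) y := by
  have hne : y - p ≠ 0 := sub_ne_zero.2 hy
  have h0 : HasDerivAt (fun x : ℂ => x - p) 1 y := (hasDerivAt_id y).sub_const p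
  have h1 := ((hasDerivAt_const y (1 : ℂ)).div (h0.pow 2) (pow_ne_zero 2 hne)).add
    ((hasDerivAt_const y c).div h0 hne)
  refine h1.congr_deriv ?_
  simp only [Pi.pow_apply]
  field_simp
  ring

theorem FSUM_d2 (p c y : ℂ) (hy : y ≠ p) :
    HasDerivAt (fun x : ℂ => -2 / (x - p) ^ 3 - c / (x - p) ^ 2)
      (6 / (y - p) ^ 4 + 2 * c / (y - p) ^ 3) y := by
  have hne : y - p ≠ 0 := sub_ne_zero.2 hy
  have h0 : HasDerivAt (fun x : ℂ => x - p) 1 y := (hasDerivAt_id y).sub_const p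
  have h1 := ((hasDerivAt_const y (-2 : ℂ)).div (h0.pow 3) (pow_ne_zero 3 hne)).sub
    ((hasDerivAt_const y c).div (h0.pow 2) (pow_ne_zero 2 hne))
  refine h1.congr_deriv ?_
  simp only [Pi.pow_apply]
  field_simp
  ring

theorem FSUM (hREMO : REMO_stmt) (hAFF2 : AFF2_stmt) : FSUM_stmt := by
  intro P A g B v q θ Pf hL hP
  obtain ⟨s, hs, hsep⟩ := hL.sep
  have hcl : IsClosed P := REMO_closed P s hs hsep
  have hopen : IsOpen Pᶜ := hcl.isOpen_compl
  have hne : ∀ x ∉ P, ∀ p ∈ Pf, x ≠ p := by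
    rintro x hx p hp rfl
    exact hx (by rw [hP]; exact hp)
  set f : ℂ → ℂ := fun x => B x - ∑ p ∈ Pf, (1 / (x - p) ^ 2 + g p / (x - p)) with hf
  have hB : ∀ x ∉ P, HasDerivAt B (deriv B x) x := fun x hx =>
    (hL.Bd.differentiableAt (hopen.mem_nhds hx)).hasDerivAt
  have hB' : ∀ x ∉ P, HasDerivAt (deriv B) (deriv (deriv B) x) x := fun x hx =>
    ((hL.Bd.deriv hopen).differentiableAt (hopen.mem_nhds hx)).hasDerivAt
  have hfd : ∀ x ∉ P, HasDerivAt f
      (deriv B x - ∑ p ∈ Pf, (-2 / (x - p) ^ 3 - g p / (x - p) ^ 2)) x := by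
    intro x hx
    exact (hB x hx).sub (HasDerivAt.fun_sum fun p hp => FSUM_d1 p (g p) x (hne x hx p hp))
  have hfd2 : ∀ x ∉ P, HasDerivAt
      (fun y => deriv B y - ∑ p ∈ Pf, (-2 / (y - p) ^ 3 - g p / (y - p) ^ 2))
      (deriv (deriv B) x - ∑ p ∈ Pf, (6 / (x - p) ^ 4 + 2 * g p / (x - p) ^ 3)) x := by
    intro x hx
    exact (hB' x hx).sub (HasDerivAt.fun_sum fun p hp => FSUM_d2 p (g p) x (hne x hx p hp))
  obtain ⟨k, hk, hkf⟩ := hREMO f P s hs hsep
    (fun x hx => (hfd x hx).differentiableAt.differentiableWithinAt) (by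
    intro p hp
    obtain ⟨h, hh, hev⟩ := hL.Bp p hp
    have hpf : p ∈ Pf := by rw [hP] at hp; exact hp
    refine ⟨fun x => h x - ∑ p' ∈ Pf.erase p, (1 / (x - p') ^ 2 + g p' / (x - p')), ?_, ?_⟩
    · refine hh.sub (Finset.analyticAt_fun_sum _ fun p' hp' => ?_)
      have hne' : p - p' ≠ 0 := sub_ne_zero.2 (Finset.ne_of_mem_erase hp').symm
      have h1 : AnalyticAt ℂ (fun x : ℂ => x - p') p := analyticAt_id.sub analyticAt_const
      exact (analyticAt_const.div (h1.pow 2) (pow_ne_zero 2 hne')).add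
        (analyticAt_const.div h1 hne')
    · filter_upwards [hev] with x hx
      rw [hf]
      simp only
      rw [hx, ← Finset.add_sum_erase _ _ hpf]
      ring)
  have hk2 : ∀ x ∉ P, iteratedDeriv 2 k x = 0 := by
    intro x hx
    have e1 : deriv k =ᶠ[𝓝 x]
        fun y => deriv B y - ∑ p ∈ Pf, (-2 / (y - p) ^ 3 - g p / (y - p) ^ 2) := by
      filter_upwards [hopen.mem_nhds hx] with y hy
      have e2 : k =ᶠ[𝓝 y] f := by
        filter_upwards [hopen.mem_nhds hy] with z hz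
        exact hkf z hz
      rw [e2.deriv_eq]
      exact (hfd y hy).deriv
    have e3 : iteratedDeriv 2 k x = deriv (deriv k) x := by
      rw [iteratedDeriv_succ, iteratedDeriv_one]
    have e4 : iteratedDeriv 2 B x = deriv (deriv B) x := by
      rw [iteratedDeriv_succ, iteratedDeriv_one]
    rw [e3, e1.deriv_eq, (hfd2 x hx).deriv, ← e4, hL.B2 x hx]
    subst hP
    rw [Finset.tsum_subtype' Pf (fun p : ℂ => 6 / (x - p) ^ 4 + 2 * g p / (x - p) ^ 3)]
    exact sub_self _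
  obtain ⟨a, c, hac⟩ := hAFF2 k P hk (by rw [hP]; exact Pf.countable_toSet) hk2
  refine ⟨a, c, fun x hx => ?_⟩
  have h1 := hkf x hx
  rw [hac x] at h1
  have h2 : f x = B x - ∑ p ∈ Pf, (1 / (x - p) ^ 2 + g p / (x - p)) := rfl
  rw [h2] at h1
  linear_combination -h1

end V3
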