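import Pool.Agent.helper54.V3.SpecE

/-!
# Project v3 (MP_af9036_an), module REMO
-/

set_option autoImplicit false

open Complex Metric Set Filter Topology MeasureTheory

noncomputable section

namespace V3

theorem REMO_nhds (P : Set ℂ) (s : ℝ) (hs : 0 < s)
    (hsep : ∀ p ∈ P, ∀ p' ∈ P, p ≠ p' → s ≤ ‖p - p'‖) (x : ℂ) : ∀ᶠ y in 𝓝[≠] x, y ∉ P := by
  by_cases hx : ∃ p ∈ P, ‖p - x‖ < s / 2
  · obtain ⟨p, hp, hpx⟩ := hx
    have h1 : ∀ᶠ y in 𝓝[≠] x, ‖y - x‖ < s / 2 := by
      have : ∀ᶠ y in 𝓝 x, y ∈ ball x (s / 2) := ball_mem_nhds x (by linarith)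
      filter_upwards [this.filter_mono nhdsWithin_le_nhds] with y hy
      rwa [mem_ball, dist_eq_norm] at hy
    have h2 : ∀ᶠ y in 𝓝[≠] x, y ≠ p := by
      by_cases hxp : x = p
      · rw [← hxp]
        exact self_mem_nhdsWithin
      · have : ∀ᶠ y in 𝓝 x, y ≠ p := isOpen_ne.mem_nhds hxp
        exact this.filter_mono nhdsWithin_le_nhds
    filter_upwards [h1, h2] with y hy1 hy2 hyP
    have h3 := hsep y hyP p hp hy2
    have h4 : ‖y - p‖ ≤ ‖y - x‖ + ‖p - x‖ := by
      have : y - p = (y - x) - (p - x) := by ring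
      rw [this]
      exact norm_sub_le _ _
    linarith
  · push Not at hx
    have : ∀ᶠ y in 𝓝 x, y ∈ ball x (s / 2) := ball_mem_nhds x (by linarith)
    filter_upwards [this.filter_mono nhdsWithin_le_nhds] with y hy hyP
    rw [mem_ball, dist_eq_norm] at hy
    exact absurd hy (not_lt.2 (hx y hyP))

theorem REMO_closed (P : Set ℂ) (s : ℝ) (hs : 0 < s)
    (hsep : ∀ p ∈ P, ∀ p' ∈ P, p ≠ p' → s ≤ ‖p - p'‖) : IsClosed P := by
  rw [← isOpen_compl_iff, isOpen_iff_mem_nhds]
  intro x hx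
  have h1 := REMO_nhds P s hs hsep x
  rw [eventually_nhdsWithin_iff] at h1
  filter_upwards [h1] with y hy
  by_cases hyx : y = x
  · rw [hyx]; exact hx
  · exact hy hyx

theorem REMO : REMO_stmt := by
  classical
  intro f P s hs hsep hf hp
  choose! h hh using hp
  have hcl := REMO_closed P s hs hsep
  refine ⟨fun x => if x ∈ P then h x x else f x, fun x => ?_, fun x hx => if_neg hx⟩
  by_cases hx : x ∈ P
  · have e1 : (fun y => if y ∈ P then h y y else f y) =ᶠ[𝓝 x] h x := by
      have h1 := REMO_nhds P s hs hsep x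
      have h2 := (hh x hx).2
      rw [eventually_nhdsWithin_iff] at h1 h2
      filter_upwards [h1, h2] with y hy1 hy2
      by_cases hyx : y = x
      · rw [hyx]; exact if_pos hx
      · rw [if_neg (hy1 hyx)]
        exact hy2 hyx
    exact ((hh x hx).1.differentiableAt).congr_of_eventuallyEq e1
  · have e1 : (fun y => if y ∈ P then h y y else f y) =ᶠ[𝓝 x] f := by
      filter_upwards [hcl.isOpen_compl.mem_nhds hx] with y hy
      exact if_neg hy
    exact (hf.differentiableAt (hcl.isOpen_compl.mem_nhds hx)).congr_of_eventuallyEq e1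

end V3
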